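import Pool.Agent.BXS.Stmts

/-!
# Squad BXS (MP_be01ff_an), row BLI
-/

set_option autoImplicit false

namespace Pool.Agent.BXS.H2

open Set Filter Topology MeasureTheory InnerProductSpace Laplacian
open scoped InnerProductSpace ENNReal
open Pool.Agent.BE01F Pool.Agent.BEC

theorem bc_compact {N : ℕ} (l : Fin N → ℝ) : IsCompact (Bc l) := by
  have h1 : IsCompact (Set.pi Set.univ fun i => Set.Icc (0 : ℝ) (l i)) :=
    isCompact_univ_pi fun i => isCompact_Icc
  have h2 := h1.image (PiLp.continuous_toLp 2 (fun _ : Fin N => ℝ))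
  have h3 : Bc l = (WithLp.toLp 2) '' (Set.pi Set.univ fun i => Set.Icc (0 : ℝ) (l i)) := by
    ext x
    constructor
    · intro hx
      exact ⟨WithLp.ofLp x, fun i _ => hx i, rfl⟩
    · rintro ⟨y, hy, rfl⟩
      exact fun i => hy i (Set.mem_univ i)
  rw [h3]
  exact h2

theorem bc_convex {N : ℕ} (l : Fin N → ℝ) : Convex ℝ (Bc l) := by
  intro x hx y hy a b ha hb hab i
  have h1 := hx i
  have h2 := hy i
  have h3 : (a • x + b • y) i = a * x i + b * y i := rfl
  rw [h3]
  constructor
  · exact add_nonneg (mul_nonneg ha h1.1) (mul_nonneg hb h2.1)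
  · calc a * x i + b * y i ≤ a * l i + b * l i :=
          add_le_add (mul_le_mul_of_nonneg_left h1.2 ha) (mul_le_mul_of_nonneg_left h2.2 hb)
      _ = l i := by rw [← add_mul, hab, one_mul]

theorem bli : BliStmt := by
  intro N l V f hl hV hBV hf hbd
  have hcd : ContinuousOn (fun x => fderiv ℝ f x) V := hf.continuousOn_fderiv_of_isOpen hV le_rfl
  obtain ⟨C, hC⟩ := (bc_compact l).exists_bound_of_continuousOn (hcd.mono hBV)
  have hdiff : ∀ x ∈ Bc l, DifferentiableAt ℝ f x := fun x hx =>
    (hf.differentiableOn one_ne_zero).differentiableAt (hV.mem_nhds (hBV hx))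
  have key : ∀ x ∈ Bc l, ∀ i, ∀ t : ℝ, (t = 0 ∨ t = l i) → |f x| ≤ max C 0 * |x i - t| := by
    intro x hx i t ht
    have hy : ∀ j, (x + (t - x i) • EuclideanSpace.single i (1 : ℝ) : E N) j =
        if j = i then t else x j := by
      intro j
      have h1 : (x + (t - x i) • EuclideanSpace.single i (1 : ℝ) : E N) j =
          x j + (t - x i) * (EuclideanSpace.single i (1 : ℝ) : E N) j := rfl
      rw [h1, EuclideanSpace.single_apply]
      by_cases hj : j = i
      · subst hj
        simp
      · simp [hj]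
    set y : E N := x + (t - x i) • EuclideanSpace.single i (1 : ℝ) with hydef
    have hyc : ∀ j, 0 ≤ y j ∧ y j ≤ l j := by
      intro j
      rw [hy j]
      by_cases hj : j = i
      · subst hj
        rw [if_pos rfl]
        rcases ht with rfl | rfl
        · exact ⟨le_rfl, (hl j).le⟩
        · exact ⟨(hl j).le, le_rfl⟩
      · rw [if_neg hj]
        exact hx j
    have hyi : y i = t := by
      rw [hy i, if_pos rfl]
    have hyb : f y = 0 := hbd y ⟨hyc, i, by rw [hyi]; exact ht⟩
    have hm := (bc_convex l).norm_image_sub_le_of_norm_fderiv_le (𝕜 := ℝ) hdiff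
      (fun z hz => (hC z hz).trans (le_max_left C 0)) (x := y) (y := x) hyc hx
    rw [hyb, sub_zero, Real.norm_eq_abs] at hm
    refine hm.trans (mul_le_mul_of_nonneg_left ?_ (le_max_right _ _))
    have h2 : x - y = (x i - t) • EuclideanSpace.single i (1 : ℝ) := by
      rw [hydef, ← sub_sub, sub_self, zero_sub, ← neg_smul, neg_sub]
    rw [h2, norm_smul, EuclideanSpace.norm_single, norm_one, mul_one, Real.norm_eq_abs]
  refine ⟨max C 0, le_max_right _ _, ?_⟩
  intro x hx i
  have hxc : x ∈ Bc l := fun j => ⟨(hx j).1.le, (hx j).2.le⟩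
  constructor
  · have h1 := key x hxc i 0 (Or.inl rfl)
    rw [sub_zero, abs_of_pos (hx i).1] at h1
    exact h1
  · have h1 := key x hxc i (l i) (Or.inr rfl)
    rw [abs_sub_comm, abs_of_pos (sub_pos.2 (hx i).2)] at h1
    exact h1

end Pool.Agent.BXS.H2
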